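import Pool.Agent.CG.UUDef

/-!
# CG-E-Hilb: Zarantonello's theorem; the superposition operator of `B ∈ UU` on `L²`

PLAN.  `zarantonello`: `K` is complete (closed in a complete space).  May assume `lam ≤ Lam`?  (not needed:) put `Λ = |Lam| + lam`,
`τ = lam / Λ²`; `S z = z - τ • P (T (g + z))`, `P` the orthogonal projection on `K` (`K.orthogonalProjection` / `Submodule.starProjection`; instance
`K.HasOrthogonalProjection` from completeness).  For `z, z' ∈ K`, `w = z - z'`, `D = T (g+z) - T (g+z')`: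
`‖S z - S z'‖² = ‖w‖² - 2 τ inner (P D) w + τ² ‖P D‖² ≤ (1 - 2 τ lam + τ² Λ²) ‖w‖² = (1 - lam²/Λ²) ‖w‖²` (`inner (P D) w = inner D w` as `w ∈ K`;
`‖P D‖ ≤ ‖D‖ ≤ Λ ‖w‖`).  `ContractingWith` on the complete space `K` with the constant `√(1 - lam²/Λ²) < 1`; fixed point: `P (T (g+z)) = 0`, so
`inner (T (g+z)) y = 0` for `y ∈ K`.
`exists_nem`: `B ∘ f` is in `L²` (`B` Lipschitz, finite measure: `‖B (f x)‖ ≤ ‖B 0‖ + |Lam| ‖f x‖`, or `LipschitzWith.comp_memLp` for `B - B 0`
plus a constant `memLp_const`); `T f = MemLp.toLp`.  Monotone: `L2.inner_def`, `‖f - g‖² = ∫ ‖f x - g x‖²`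
(`L2.inner_def`, `real_inner_self_eq_norm_sq`), pointwise inequality.  Lipschitz: `Lp.norm_le_mul_norm_of_ae_le_mul`.
-/

set_option autoImplicit false

namespace Pool.Agent.CG

open MeasureTheory Set Filter Topology
open scoped ContDiff ENNReal

theorem zarantonello {H : Type*} [NormedAddCommGroup H] [InnerProductSpace ℝ H] [CompleteSpace H]
    (K : Submodule ℝ H) (hK : IsClosed (K : Set H)) {lam Lam : ℝ} (hlam : 0 < lam) (T : H → H)
    (hm : ∀ x y, lam * ‖x - y‖ ^ 2 ≤ inner ℝ (T x - T y) (x - y))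
    (hl : ∀ x y, ‖T x - T y‖ ≤ Lam * ‖x - y‖) (g : H) :
    ∃ z ∈ K, ∀ y ∈ K, inner ℝ (T (g + z)) y = 0 := by
  haveI : CompleteSpace K := hK.completeSpace_coe
  set L : ℝ := |Lam| + lam with hL
  have hLpos : 0 < L := by positivity
  have hlamL : lam ≤ L := by
    have := abs_nonneg Lam
    linarith
  set τ : ℝ := lam / L ^ 2 with hτ
  have hτpos : 0 < τ := by positivity
  set κ : ℝ := √(1 - lam ^ 2 / L ^ 2) with hκ
  have hfrac0 : 0 < lam ^ 2 / L ^ 2 := by positivity
  have hfrac1 : lam ^ 2 / L ^ 2 ≤ 1 := by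
    rw [div_le_one (by positivity)]
    exact pow_le_pow_left₀ hlam.le hlamL 2
  have hκ2 : κ ^ 2 = 1 - lam ^ 2 / L ^ 2 := Real.sq_sqrt (by linarith)
  have hκ0 : 0 ≤ κ := Real.sqrt_nonneg _
  have hκ1 : κ < 1 := by
    rw [hκ, Real.sqrt_lt' one_pos]
    linarith
  have hP : ∀ v : H, ∀ y ∈ K, inner ℝ (K.starProjection v) y = inner ℝ v y := by
    intro v y hy
    have h1 := K.starProjection_inner_eq_zero v y hy
    rw [inner_sub_left] at h1
    linarith
  let S : K → K := fun z => z - τ • K.orthogonalProjectionOnto (T (g + z))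
  have hS : ∀ z z' : K, dist (S z) (S z') ≤ κ * dist z z' := by
    intro z z'
    rw [dist_eq_norm, dist_eq_norm]
    set w : H := (z : H) - z' with hw
    have hwK : w ∈ K := K.sub_mem z.2 z'.2
    set D : H := T (g + z) - T (g + z') with hD
    have h1 : ((S z - S z' : K) : H) = w - τ • K.starProjection D := by
      simp only [S, Submodule.coe_sub, Submodule.coe_smul,
        Submodule.coe_orthogonalProjectionOnto_apply]
      rw [hD, map_sub, smul_sub, hw]
      abel
    have h2 : ‖S z - S z'‖ = ‖w - τ • K.starProjection D‖ := by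
      rw [← h1]
      rfl
    have h3 : ‖z - z'‖ = ‖w‖ := rfl
    have h4 : ‖D‖ ≤ L * ‖w‖ := by
      have e1 : g + (z : H) - (g + z') = w := by
        rw [hw]
        abel
      have e2 := hl (g + z) (g + z')
      rw [e1] at e2
      refine e2.trans (mul_le_mul_of_nonneg_right ?_ (norm_nonneg _))
      have := le_abs_self Lam
      linarith
    have h5 : lam * ‖w‖ ^ 2 ≤ inner ℝ D w := by
      have e1 : g + (z : H) - (g + z') = w := by
        rw [hw]
        abel
      have e2 := hm (g + z) (g + z')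
      rwa [e1] at e2
    have h6 : ‖K.starProjection D‖ ≤ L * ‖w‖ := (K.norm_starProjection_apply_le D).trans h4
    rw [h2, h3]
    have h7 : ‖w - τ • K.starProjection D‖ ^ 2 ≤ (κ * ‖w‖) ^ 2 := by
      rw [norm_sub_sq_real, inner_smul_right, real_inner_comm, hP D w hwK, norm_smul,
        Real.norm_of_nonneg hτpos.le, mul_pow, mul_pow, hκ2]
      have h8 : ‖K.starProjection D‖ ^ 2 ≤ (L * ‖w‖) ^ 2 :=
        pow_le_pow_left₀ (norm_nonneg _) h6 2
      have h9 : τ ^ 2 * ‖K.starProjection D‖ ^ 2 ≤ τ ^ 2 * (L * ‖w‖) ^ 2 :=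
        mul_le_mul_of_nonneg_left h8 (by positivity)
      have h10 : τ * (lam * ‖w‖ ^ 2) ≤ τ * inner ℝ D w := mul_le_mul_of_nonneg_left h5 hτpos.le
      have h11 : τ ^ 2 * (L * ‖w‖) ^ 2 = lam ^ 2 / L ^ 2 * ‖w‖ ^ 2 := by
        rw [hτ]
        field_simp
      have h12 : τ * (lam * ‖w‖ ^ 2) = lam ^ 2 / L ^ 2 * ‖w‖ ^ 2 := by
        rw [hτ]
        ring
      nlinarith
    exact le_of_sq_le_sq h7 (by positivity)
  have hc : ContractingWith ⟨κ, hκ0⟩ S := by
    refine ⟨?_, LipschitzWith.of_dist_le_mul hS⟩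
    exact_mod_cast hκ1
  obtain ⟨z, hz⟩ : ∃ z : K, S z = z := ⟨_, hc.fixedPoint_isFixedPt⟩
  refine ⟨z, z.2, ?_⟩
  intro y hy
  have h1 : τ • K.orthogonalProjectionOnto (T (g + z)) = 0 := by
    have : z - τ • K.orthogonalProjectionOnto (T (g + z)) = z := hz
    rwa [sub_eq_self] at this
  have h2 : K.orthogonalProjectionOnto (T (g + z)) = 0 := by
    rcases smul_eq_zero.1 h1 with h | h
    · exact absurd h hτpos.ne'
    · exact h
  have h3 : K.starProjection (T (g + z)) = 0 := by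
    rw [← Submodule.coe_orthogonalProjectionOnto_apply, h2]
    rfl
  rw [← hP (T (g + z)) y hy, h3, inner_zero_left]

theorem exists_nem {α : Type*} [MeasurableSpace α] (μ : Measure α) [IsFiniteMeasure μ] {m : ℕ}
    {lam Lam : ℝ} {B : Hv m → Hv m} (hB : UU lam Lam B) :
    ∃ T : Lp (Hv m) 2 μ → Lp (Hv m) 2 μ, (∀ f, T f =ᵐ[μ] fun x => B (f x)) ∧
      (∀ f g, lam * ‖f - g‖ ^ 2 ≤ inner ℝ (T f - T g) (f - g)) ∧
      ∀ f g, ‖T f - T g‖ ≤ |Lam| * ‖f - g‖ := by
  have hlip : LipschitzWith (Real.toNNReal |Lam|) (fun ξ => B ξ - B 0) := by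
    refine LipschitzWith.of_dist_le_mul ?_
    intro ξ ζ
    rw [dist_eq_norm, dist_eq_norm, Real.coe_toNNReal _ (abs_nonneg _)]
    have h1 : B ξ - B 0 - (B ζ - B 0) = B ξ - B ζ := by abel
    rw [h1]
    exact (hB.lip ξ ζ).trans (mul_le_mul_of_nonneg_right (le_abs_self _) (norm_nonneg _))
  have hmem : ∀ f : Lp (Hv m) 2 μ, MemLp (fun x => B (f x)) 2 μ := by
    intro f
    have h1 : MemLp ((fun ξ => B ξ - B 0) ∘ f) 2 μ :=
      hlip.comp_memLp (by simp) (Lp.memLp f)
    have h2 : MemLp (fun _ : α => B 0) 2 μ := memLp_const _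
    have h3 := h1.add h2
    refine h3.congr_norm ?_ ?_
    · have h4 : (fun x => B (f x)) = ((fun ξ => B ξ - B 0) ∘ f) + fun _ : α => B 0 := by
        funext x
        simp
      rw [h4]
      exact h3.1
    · refine Eventually.of_forall fun x => ?_
      simp
  refine ⟨fun f => (hmem f).toLp _, fun f => (hmem f).coeFn_toLp, ?_, ?_⟩
  · intro f g
    have hf := (hmem f).coeFn_toLp
    have hg := (hmem g).coeFn_toLp
    have hs1 := Lp.coeFn_sub f g
    have hs2 := Lp.coeFn_sub ((hmem f).toLp _) ((hmem g).toLp _)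
    rw [← real_inner_self_eq_norm_sq, L2.inner_def, L2.inner_def, ← integral_const_mul]
    refine integral_mono_ae ((L2.integrable_inner (𝕜 := ℝ) (f - g) (f - g)).const_mul lam)
      (L2.integrable_inner (𝕜 := ℝ) _ _) ?_
    filter_upwards [hf, hg, hs1, hs2] with x h1 h2 h3 h4
    rw [h3, h4, Pi.sub_apply, Pi.sub_apply, h1, h2, real_inner_self_eq_norm_sq]
    exact hB.mono _ _
  · intro f g
    have hf := (hmem f).coeFn_toLp
    have hg := (hmem g).coeFn_toLp
    have hs1 := Lp.coeFn_sub f g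
    have hs2 := Lp.coeFn_sub ((hmem f).toLp _) ((hmem g).toLp _)
    refine Lp.norm_le_mul_norm_of_ae_le_mul ?_
    filter_upwards [hf, hg, hs1, hs2] with x h1 h2 h3 h4
    rw [h3, h4, Pi.sub_apply, Pi.sub_apply, h1, h2]
    exact (hB.lip _ _).trans (mul_le_mul_of_nonneg_right (le_abs_self _) (norm_nonneg _))

end Pool.Agent.CG
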