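import Pool.Agent.CG.E.HW0p
import Pool.Agent.CG.E.Hilb

/-!
# CG-E-Dir: existence for the Dirichlet problem

PLAN.  `m = 0`: `z = 0`, `Z = 0`, `HW0` with `φ n = 0`; `Hv 0` is a point, so every inner product is 0.
`0 < m`: `D = B x R`, `μ = volume.restrict D`, finite (`vol_B_lt_top`).  `S = {f : Lp (Hv m) 2 μ | ∃ φ, Test D φ ∧ f =ᵐ[μ] G.grad φ}` is a submodule
(`Test` is stable under linear combinations, `G.grad` is linear on smooth functions; `G.grad φ` is continuous with compact
support, so in `L²`).  `K` = its closure (`Submodule.topologicalClosure`).  `exists_nem μ`, `zarantonello` with `g = Γ` (`hΓ.toLp`): `f ∈ K` with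
`inner (T (g + f)) y = 0` for `y ∈ K`.  Sequence `φ n` of tests with `grad (φ n) → f` in `L²(μ)` (`mem_closure_iff_seq_limit`).
`Z = D.indicator f` (a strongly measurable representative of `f`); `MemLp Z 2 volume` (`memLp_indicator_iff_restrict`);
`eLpNorm (grad (φ n) - Z) 2 volume = eLpNorm (grad (φ n) - f) 2 μ` (both vanish off `D`) `→ 0`; `HW0.complete` gives `z`.
Equation: for a test `φ`, `∫ inner (B (Γ + Z)) (grad φ) = ∫_D .. = inner (T (g+f)) (toLp (grad φ)) = 0` (`L2.inner_def`; `grad φ = 0` off `D`).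
-/

set_option autoImplicit false

namespace Pool.Agent.CG

open MeasureTheory Set Filter Topology
open scoped ContDiff ENNReal

variable {N m : ℕ}

private theorem test_zero (D : Set (Pt N)) : Test D (fun _ => (0 : ℝ)) := by
  refine ⟨contDiff_const, ?_, ?_⟩
  · exact HasCompactSupport.intro isCompact_empty (fun _ _ => rfl)
  · have : tsupport (fun _ : Pt N => (0 : ℝ)) = ∅ := by
      rw [tsupport_eq_empty_iff]; rfl
    rw [this]; exact empty_subset _

private theorem grad_zero' (G : Carnot N m) (x : Pt N) : G.grad (fun _ => (0 : ℝ)) x = 0 := by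
  ext k
  simp [Carnot.grad, Carnot.X]

private theorem test_add {D : Set (Pt N)} {φ ψ : Pt N → ℝ} (h : Test D φ) (h' : Test D ψ) :
    Test D (fun y => φ y + ψ y) := by
  refine ⟨h.smooth.add h'.smooth, h.cpt.add h'.cpt, ?_⟩
  exact (tsupport_add φ ψ).trans (union_subset h.sub h'.sub)

private theorem grad_add' (G : Carnot N m) {D : Set (Pt N)} {φ ψ : Pt N → ℝ} (h : Test D φ)
    (h' : Test D ψ) (x : Pt N) :
    G.grad (fun y => φ y + ψ y) x = G.grad φ x + G.grad ψ x := by
  ext k
  exact G.X_add ((h.smooth.differentiable (by simp)) x) ((h'.smooth.differentiable (by simp)) x) k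

private theorem test_smul {D : Set (Pt N)} {φ : Pt N → ℝ} (c : ℝ) (h : Test D φ) :
    Test D (fun y => c * φ y) := by
  refine ⟨contDiff_const.mul h.smooth, h.cpt.mul_left, ?_⟩
  exact (tsupport_mul_subset_right (f := fun _ => c) (g := φ)).trans h.sub

private theorem grad_smul' (G : Carnot N m) {D : Set (Pt N)} {φ : Pt N → ℝ} (c : ℝ) (h : Test D φ)
    (x : Pt N) : G.grad (fun y => c * φ y) x = c • G.grad φ x := by
  ext k
  have h1 := ((G.hasDerivAt_X0 ((h.smooth.differentiable (by simp)) x) k).const_mul c).deriv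
  exact h1

private theorem memLp_grad (G : Carnot N m) {D : Set (Pt N)} {φ : Pt N → ℝ} (h : Test D φ)
    (μ : Measure (Pt N)) [IsFiniteMeasureOnCompacts μ] : MemLp (G.grad φ) 2 μ := by
  refine (G.smooth_grad h.smooth).continuous.memLp_of_hasCompactSupport ?_
  exact HasCompactSupport.intro h.cpt (fun x hx => (grad_zero_of_notMem hx).2)

/-- gradients of tests, in `L²` -/
private noncomputable def gradS (G : Carnot N m) (D : Set (Pt N)) (μ : Measure (Pt N)) :
    Submodule ℝ (Lp (Hv m) 2 μ) where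
  carrier := {f | ∃ φ, Test D φ ∧ f =ᵐ[μ] G.grad φ}
  add_mem' := by
    rintro f g ⟨φ, hφ, hf⟩ ⟨ψ, hψ, hg⟩
    refine ⟨_, test_add hφ hψ, ?_⟩
    filter_upwards [Lp.coeFn_add f g, hf, hg] with x h1 h2 h3
    rw [h1, Pi.add_apply, h2, h3, grad_add' G hφ hψ]
  zero_mem' := by
    refine ⟨_, test_zero D, ?_⟩
    filter_upwards [Lp.coeFn_zero (Hv m) 2 μ] with x h1
    rw [h1, grad_zero']
    rfl
  smul_mem' := by
    rintro c f ⟨φ, hφ, hf⟩
    refine ⟨_, test_smul c hφ, ?_⟩
    filter_upwards [Lp.coeFn_smul c f, hf] with x h1 h2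
    rw [h1, Pi.smul_apply, h2, grad_smul' G c hφ]

/-- PART E: existence for the Dirichlet problem. -/
theorem exists_dirichlet' (G : Carnot N m) {lam Lam : ℝ} (hlam : 0 < lam) {B : Hv m → Hv m}
    (hB : UU lam Lam B) (x : Pt N) (R : ℝ) (hR : 0 < R) {Γ : Pt N → Hv m}
    (hΓ : MemLp Γ 2 (volume.restrict (G.B x R))) :
    ∃ (z : Pt N → ℝ) (Z : Pt N → Hv m), HW0 G 2 (G.B x R) z Z ∧
      ∀ φ : Pt N → ℝ, Test (G.B x R) φ → ∫ y, inner ℝ (B (Γ y + Z y)) (G.grad φ y) = 0 := by
  rcases Nat.eq_zero_or_pos m with hm0 | hm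
  · subst hm0
    refine ⟨fun _ => 0, fun _ => 0, ⟨MemLp.zero', MemLp.zero', ?_⟩, ?_⟩
    · refine ⟨fun _ _ => 0, fun _ => test_zero _, ?_, ?_⟩
      · simp
      · have : (fun _ : ℕ => eLpNorm (fun x => G.grad (fun _ => (0 : ℝ)) x - (0 : Hv 0)) 2
            (volume : Measure (Pt N))) = fun _ => 0 := by
          funext n
          have h1 : (fun x : Pt N => G.grad (fun _ => (0 : ℝ)) x - (0 : Hv 0)) = fun _ => 0 := by
            funext x
            rw [grad_zero', sub_zero]
          rw [h1]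
          exact eLpNorm_zero'
        rw [this]
        exact tendsto_const_nhds
    · intro φ _
      have : (fun y => inner ℝ (B (Γ y + 0)) (G.grad φ y)) = fun _ => (0 : ℝ) := by
        funext y
        rw [Subsingleton.elim (B (Γ y + 0)) 0, inner_zero_left]
      rw [this, integral_zero]
  set D := G.B x R with hD
  have hDo : IsOpen D := G.isOpen_B x R
  set μ : Measure (Pt N) := volume.restrict D with hμ
  haveI : IsFiniteMeasure μ := ⟨by
    rw [hμ, Measure.restrict_apply_univ]
    exact G.vol_B_lt_top x R⟩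
  obtain ⟨T, hT, hTm, hTl⟩ := exists_nem μ hB
  obtain ⟨f, hfK, hf⟩ := zarantonello (gradS G D μ).topologicalClosure
    (Submodule.isClosed_topologicalClosure _) hlam T hTm hTl (hΓ.toLp Γ)
  have hf1 : f ∈ closure ((gradS G D μ : Submodule ℝ (Lp (Hv m) 2 μ)) : Set (Lp (Hv m) 2 μ)) := hfK
  obtain ⟨fs, hfs, hlim⟩ := mem_closure_iff_seq_limit.1 hf1
  choose φ hφ hφ' using hfs
  have hZ : MemLp (D.indicator f) 2 volume :=
    (memLp_indicator_iff_restrict hDo.measurableSet).2 (Lp.memLp f)
  have hconv : Tendsto (fun n => eLpNorm (fun y => G.grad (φ n) y - D.indicator f y) 2 volume)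
      atTop (𝓝 0) := by
    have h1 : ∀ n, eLpNorm (fun y => G.grad (φ n) y - D.indicator f y) 2 volume =
        eLpNorm (⇑(fs n) - ⇑f) 2 μ := by
      intro n
      have h2 : (fun y => G.grad (φ n) y - D.indicator f y) =
          D.indicator (fun y => G.grad (φ n) y - f y) := by
        funext y
        by_cases hy : y ∈ D
        · rw [indicator_of_mem hy, indicator_of_mem hy]
        · rw [indicator_of_notMem hy, indicator_of_notMem hy,
            (grad_zero_of_notMem (fun h => hy ((hφ n).sub h))).2, sub_zero]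
      rw [h2, eLpNorm_indicator_eq_eLpNorm_restrict hDo.measurableSet]
      refine eLpNorm_congr_ae ?_
      filter_upwards [hφ' n] with y hy
      rw [Pi.sub_apply, hy]
    simp only [h1]
    exact (Lp.tendsto_Lp_iff_tendsto_eLpNorm' fs f).1 hlim
  obtain ⟨z, hz⟩ := HW0.complete G hm x hR hφ hZ hconv
  refine ⟨z, _, hz, ?_⟩
  intro ψ hψ
  have hψm : MemLp (G.grad ψ) 2 μ := memLp_grad G hψ μ
  have hψK : hψm.toLp (G.grad ψ) ∈ (gradS G D μ).topologicalClosure := by
    refine Submodule.le_topologicalClosure _ ?_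
    exact ⟨ψ, hψ, hψm.coeFn_toLp⟩
  have h1 := hf _ hψK
  rw [L2.inner_def] at h1
  rw [← h1, ← setIntegral_eq_integral_of_forall_compl_eq_zero (s := D)]
  · refine integral_congr_ae ?_
    have hmem : ∀ᵐ y ∂μ, y ∈ D := ae_restrict_mem hDo.measurableSet
    filter_upwards [hmem, hT (hΓ.toLp Γ + f), Lp.coeFn_add (hΓ.toLp Γ) f, hΓ.coeFn_toLp,
      hψm.coeFn_toLp] with y h2 h3 h4 h5 h6
    rw [h3, h4, h6, Pi.add_apply, h5, indicator_of_mem h2]
  · intro y hy
    rw [(grad_zero_of_notMem (fun h => hy (hψ.sub h))).2, inner_zero_right]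

end Pool.Agent.CG
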