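import Pool.Agent.CG.Sob
import Pool.Agent.CG.UUDef

/-!
# CG-E-HW0a: functions of `HW^{1,q}_0(D)`

PLAN.  `HW0.hw'`: `LqLoc` from `MemLp` (`MemLp.restrict`).  `weak`: for a test function `ψ` (on `univ`) and each `n`
`∫ φ n * X_k ψ = - ∫ X_k (φ n) * ψ` (`G.integral_X` for the product `φ n * ψ` (C¹, compact support), `X_k` of a product:
`G.X_eq` + `fderiv_mul`, or `HW.smooth` for `φ n`: it is `(HW.smooth (φ n)).weak ψ k` with `G.grad (φ n) x k = G.X k (φ n) x`).
Pass to the limit: `|∫ (φ n - z) X_k ψ| ≤ eLpNorm (φ n - z) q * eLpNorm (X_k ψ) q'` (Hölder), or first go down to `L¹` on the compact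
set `tsupport ψ`: `eLpNorm_le_eLpNorm_mul_rpow_measure_univ` / `eLpNorm_mono_exponent..` on the finite measure `volume.restrict (tsupport ψ)` and
`X_k ψ` is bounded.  `|F x k| ≤ ‖F x‖`.
`HW0.zero'`: restrict to `Dᶜ` (measurable): `φ n = 0` and `grad (φ n) = 0` there (`tsupport ⊆ D`; near a point outside of `tsupport`
`φ n` is locally 0), so `eLpNorm z q (restrict Dᶜ) ≤ eLpNorm (φ n - z) q → 0`, `eLpNorm_eq_zero_iff` (`q ≠ 0`).
`HW0.test'`: `∫_D inner H Z = lim ∫_D inner H (grad (φ n))` (Hölder: `|∫_D inner H (Z - grad (φ n))| ≤ eLpNorm H p' * eLpNorm (..) p`; e.g.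
`MeasureTheory.eLpNorm_smul_le_mul_eLpNorm`-like for `‖H‖ ‖Z - grad‖`) and `∫_D inner H (grad (φ n)) = ∫ inner H (grad (φ n)) = 0`
(`setIntegral_eq_integral_of_forall_compl_eq_zero`).
-/

set_option autoImplicit false

namespace Pool.Agent.CG

open MeasureTheory Set Filter Topology
open scoped ContDiff ENNReal

variable {N m : ℕ}

theorem grad_zero_of_notMem {G : Carnot N m} {φ : Pt N → ℝ} {x : Pt N} (hx : x ∉ tsupport φ) :
    φ x = 0 ∧ G.grad φ x = 0 := by
  refine ⟨image_eq_zero_of_notMem_tsupport hx, ?_⟩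
  have h0 : ∀ᶠ y in 𝓝 x, φ y = 0 := by
    have h1 : (tsupport φ)ᶜ ∈ 𝓝 x := (isClosed_tsupport φ).isOpen_compl.mem_nhds hx
    filter_upwards [h1] with y hy
    exact image_eq_zero_of_notMem_tsupport hy
  ext k
  show deriv (fun t : ℝ => φ (G.mul x (t • G.e k))) 0 = 0
  have hc : Continuous fun t : ℝ => G.mul x (t • G.e k) :=
    (G.continuous_left x).comp (continuous_id.smul continuous_const)
  have h2 : Tendsto (fun t : ℝ => G.mul x (t • G.e k)) (𝓝 0) (𝓝 x) := by
    have := hc.tendsto 0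
    simpa [G.mul_zero] using this
  have h3 : (fun t : ℝ => φ (G.mul x (t • G.e k))) =ᶠ[𝓝 0] fun _ => (0 : ℝ) :=
    h2.eventually h0
  rw [h3.deriv_eq]
  simp

/-- limits of integrals of products -/
private theorem tendsto_bil {E F : Type*} [NormedAddCommGroup E] [NormedAddCommGroup F]
    {μ : Measure (Pt N)} {p p' : ℝ≥0∞} (hpp : ENNReal.HolderConjugate p p') (b : E → F → ℝ)
    (hb : Continuous fun z : E × F => b z.1 z.2) (hbn : ∀ x y, |b x y| ≤ ‖x‖ * ‖y‖)
    (hbs : ∀ x y y', b x y - b x y' = b x (y - y')) {H : Pt N → E} (hH : MemLp H p' μ)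
    {f : ℕ → Pt N → F} {g : Pt N → F} (hf : ∀ n, MemLp (f n) p μ) (hg : MemLp g p μ)
    (hlim : Tendsto (fun n => eLpNorm (fun x => f n x - g x) p μ) atTop (𝓝 0)) :
    Tendsto (fun n => ∫ x, b (H x) (f n x) ∂μ) atTop (𝓝 (∫ x, b (H x) (g x) ∂μ)) := by
  have hpp' : ENNReal.HolderTriple p' p 1 := by
    have := hpp
    exact this.symm
  have hm : ∀ {h : Pt N → F}, MemLp h p μ → AEStronglyMeasurable (fun x => b (H x) (h x)) μ :=
    fun {h} hh => hb.comp_aestronglyMeasurable (hH.1.prodMk hh.1)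
  have hle : ∀ {h : Pt N → F}, MemLp h p μ →
      eLpNorm (fun x => b (H x) (h x)) 1 μ ≤ eLpNorm H p' μ * eLpNorm h p μ := by
    intro h hh
    have := eLpNorm_le_eLpNorm_mul_eLpNorm_of_nnnorm (p := p') (q := p) (r := 1) hH.1 hh.1 b 1
      (Eventually.of_forall fun x => by
        rw [one_mul]
        exact hbn _ _)
    simpa using this
  have hint : ∀ {h : Pt N → F}, MemLp h p μ → Integrable (fun x => b (H x) (h x)) μ := by
    intro h hh
    rw [← memLp_one_iff_integrable]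
    exact ⟨hm hh, (hle hh).trans_lt (ENNReal.mul_lt_top hH.2 hh.2)⟩
  refine tendsto_integral_of_L1' _ (hm hg) (Eventually.of_forall fun n => hint (hf n)) ?_
  refine tendsto_of_tendsto_of_tendsto_of_le_of_le tendsto_const_nhds
    (g := fun _ => 0) (h := fun n => eLpNorm H p' μ * eLpNorm (fun x => f n x - g x) p μ) ?_
    (fun n => zero_le) ?_
  · have := ENNReal.Tendsto.const_mul hlim (Or.inr hH.2.ne)
    simpa using this
  · intro n
    have h1 : ((fun x => b (H x) (f n x)) - fun x => b (H x) (g x)) =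
        fun x => b (H x) (f n x - g x) := by
      funext x
      exact hbs _ _ _
    simp only [h1]
    exact hle ((hf n).sub hg)

private theorem memLp_test {q : ℝ≥0∞} {D : Set (Pt N)} {φ : Pt N → ℝ} (h : Test D φ) :
    MemLp φ q volume :=
  h.smooth.continuous.memLp_of_hasCompactSupport h.cpt

private theorem memLp_grad {G : Carnot N m} {q : ℝ≥0∞} {D : Set (Pt N)} {φ : Pt N → ℝ}
    (h : Test D φ) : MemLp (G.grad φ) q volume :=
  (G.smooth_grad h.smooth).continuous.memLp_of_hasCompactSupport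
    (HasCompactSupport.intro h.cpt fun _ hx => (grad_zero_of_notMem hx).2)

theorem HW0.hw' {G : Carnot N m} {q : ℝ≥0∞} (hq : 1 ≤ q) {D : Set (Pt N)} {z : Pt N → ℝ}
    {Z : Pt N → Hv m} (h : HW0 G q D z Z) : HW G q univ z Z := by
  obtain ⟨φ, hφ, h1, h2⟩ := h.approx
  refine ⟨fun K _ _ => h.memz.restrict K, fun K _ _ => h.memZ.restrict K, ?_⟩
  intro ψ hψ k
  have hqq := ENNReal.HolderConjugate.conjExponent hq
  have e1 : Tendsto (fun n => ∫ x, G.X k ψ x * φ n x) atTop (𝓝 (∫ x, G.X k ψ x * z x)) := by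
    refine tendsto_bil hqq (fun a c : ℝ => a * c) continuous_mul
      (fun x y => by rw [abs_mul]; exact le_rfl) (fun x y y' => by ring)
      (memLp_test (G.test_X hψ k)) (fun n => memLp_test (hφ n)) h.memz h1
  have e2 : Tendsto (fun n => ∫ x, ψ x * (G.grad (φ n) x) k) atTop (𝓝 (∫ x, ψ x * Z x k)) := by
    refine tendsto_bil hqq (fun (a : ℝ) (c : Hv m) => a * c k) ?_
      (fun x y => ?_) (fun x y y' => ?_)
      (memLp_test hψ) (fun n => memLp_grad (hφ n)) h.memZ h2
    · fun_prop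
    · rw [abs_mul, Real.norm_eq_abs]
      exact mul_le_mul_of_nonneg_left (PiLp.norm_apply_le y k) (abs_nonneg _)
    · simp only [PiLp.sub_apply]
      ring
  have e3 : ∀ n, ∫ x, G.X k ψ x * φ n x = - ∫ x, ψ x * (G.grad (φ n) x) k := by
    intro n
    have := (HW.smooth (G := G) (q := q) (Ω := univ) (hφ n).smooth).weak ψ hψ k
    have h4 : ∀ x, G.X k ψ x * φ n x = φ n x * G.X k ψ x := fun x => mul_comm _ _
    have h5 : ∀ x, ψ x * (G.grad (φ n) x) k = (G.grad (φ n) x) k * ψ x := fun x => mul_comm _ _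
    simp only [h4, h5]
    exact this
  have e4 : ∫ x, G.X k ψ x * z x = - ∫ x, ψ x * Z x k := by
    refine tendsto_nhds_unique e1 ?_
    simp only [e3]
    exact e2.neg
  have h4 : ∀ x, z x * G.X k ψ x = G.X k ψ x * z x := fun x => mul_comm _ _
  have h5 : ∀ x, Z x k * ψ x = ψ x * Z x k := fun x => mul_comm _ _
  simp only [h4, h5]
  exact e4

private theorem zero_aux {E : Type*} [NormedAddCommGroup E] {q : ℝ≥0∞} (hq : 1 ≤ q)
    {D : Set (Pt N)} (hD : IsOpen D) {z : Pt N → E} (hz : MemLp z q volume)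
    {f : ℕ → Pt N → E} (hf : ∀ n, ∀ x, x ∉ D → f n x = 0)
    (hlim : Tendsto (fun n => eLpNorm (fun x => f n x - z x) q volume) atTop (𝓝 0)) :
    ∀ᵐ x, x ∉ D → z x = 0 := by
  have hDm : MeasurableSet Dᶜ := hD.measurableSet.compl
  have h1 : ∀ n, eLpNorm z q (volume.restrict Dᶜ) ≤ eLpNorm (fun x => f n x - z x) q volume := by
    intro n
    have h2 : eLpNorm z q (volume.restrict Dᶜ) =
        eLpNorm (fun x => f n x - z x) q (volume.restrict Dᶜ) := by
      refine eLpNorm_congr_norm_ae ?_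
      refine (ae_restrict_iff' hDm).2 (Eventually.of_forall fun x hx => ?_)
      rw [hf n x hx, zero_sub, norm_neg]
    rw [h2]
    exact eLpNorm_mono_measure _ Measure.restrict_le_self
  have h3 : eLpNorm z q (volume.restrict Dᶜ) = 0 :=
    le_antisymm (ge_of_tendsto' hlim h1) (zero_le)
  have h4 := (eLpNorm_eq_zero_iff hz.1.restrict (zero_lt_one.trans_le hq).ne').1 h3
  exact (ae_restrict_iff' hDm).1 h4

theorem HW0.zero' {G : Carnot N m} {q : ℝ≥0∞} (hq : 1 ≤ q) {D : Set (Pt N)} (hD : IsOpen D) {z : Pt N → ℝ}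
    {Z : Pt N → Hv m} (h : HW0 G q D z Z) : ∀ᵐ x, x ∉ D → z x = 0 ∧ Z x = 0 := by
  obtain ⟨φ, hφ, h1, h2⟩ := h.approx
  have a1 := zero_aux hq hD h.memz
    (fun n x hx => (grad_zero_of_notMem (G := G) (fun hc => hx ((hφ n).sub hc))).1) h1
  have a2 := zero_aux hq hD h.memZ
    (fun n x hx => (grad_zero_of_notMem (G := G) (fun hc => hx ((hφ n).sub hc))).2) h2
  filter_upwards [a1, a2] with x b1 b2 hx
  exact ⟨b1 hx, b2 hx⟩

theorem HW0.test' {G : Carnot N m} {p p' : ℝ≥0∞} (hp : 1 ≤ p) (hpp : ENNReal.HolderConjugate p p')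
    {D : Set (Pt N)} (hD : IsOpen D) {z : Pt N → ℝ} {Z : Pt N → Hv m} (h : HW0 G p D z Z)
    {H : Pt N → Hv m} (hH : MemLp H p' (volume.restrict D))
    (h0 : ∀ φ : Pt N → ℝ, Test D φ → ∫ x, inner ℝ (H x) (G.grad φ x) = 0) :
    ∫ x in D, inner ℝ (H x) (Z x) = 0 := by
  obtain ⟨φ, hφ, h1, h2⟩ := h.approx
  have e1 : Tendsto (fun n => ∫ x in D, inner ℝ (H x) (G.grad (φ n) x)) atTop
      (𝓝 (∫ x in D, inner ℝ (H x) (Z x))) := by
    refine tendsto_bil hpp (fun a c : Hv m => inner ℝ a c) (by fun_prop)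
      (fun x y => abs_real_inner_le_norm x y) (fun x y y' => (inner_sub_right x y y').symm)
      hH (fun n => (memLp_grad (hφ n)).restrict D) (h.memZ.restrict D) ?_
    refine tendsto_of_tendsto_of_tendsto_of_le_of_le tendsto_const_nhds h2
      (fun n => zero_le) (fun n => ?_)
    exact eLpNorm_mono_measure _ Measure.restrict_le_self
  have e2 : ∀ n, ∫ x in D, inner ℝ (H x) (G.grad (φ n) x) = 0 := by
    intro n
    rw [setIntegral_eq_integral_of_forall_compl_eq_zero]
    · exact h0 _ (hφ n)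
    · intro x hx
      rw [(grad_zero_of_notMem (G := G) (fun hc => hx ((hφ n).sub hc))).2, inner_zero_right]
  simp only [e2] at e1
  exact (tendsto_nhds_unique e1 tendsto_const_nhds)

/-- test functions are in `HW^{1,q}_0` -/
theorem HW0.of_test {G : Carnot N m} {q : ℝ≥0∞} {D : Set (Pt N)} {φ : Pt N → ℝ} (h : Test D φ) :
    HW0 G q D φ (G.grad φ) := by
  refine ⟨memLp_test h, memLp_grad h, fun _ => φ, fun _ => h, ?_, ?_⟩
  · simp
  · simp

end Pool.Agent.CG
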