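import Pool.Agent.CG.E.HW0a

/-!
# CG-E-HW0p: Poincaré inequality in `HW^{1,2}_0` of a ball; completeness

PLAN.  `HW0.poincare'`: `g0 = G.e ⟨0, hm⟩ ≠ 0`, `l0 = ell g0 > 0` (`ell_pos`), `g = del r g0` with `r = 2R/l0`: `ell g = 2R < 3R`.
For `y ∈ B x R`: `mul y g ∉ B x R` (`di y (mul y g) = ell g = 2R`, triangle inequality), so `z (mul y g) = 0` for a.e. `y ∈ B x R`
(`HW0.zero'`, `G.mp_right g` is measure preserving: the exceptional null set pulls back to a null set).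
`HW.trans` (`q = 2`, `l = 3R`) on `B x R`: `eLpNorm z 2 (restrict (B x R)) ≤ 3R eLpNorm Z 2 (restrict ..) ≤ 3R eLpNorm Z 2 volume`; `z = 0` a.e. off
`B x R`.  Convert to integrals: `∫ z² = (eLpNorm z 2).toReal ^ 2` (`MemLp.eLpNorm_eq_integral_rpow_norm`, or
`eLpNorm_eq_lintegral_rpow_enorm_toReal`, `ofReal_integral_eq_lintegral_ofReal`); `C = 9`.
`HW0.complete`: Poincaré for `φ n - φ m` (`HW0.of_test`; `grad (φ n - φ m) = grad (φ n) - grad (φ m)`): `φ n` is Cauchy in `Lp ℝ 2 volume`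
(`MemLp.toLp`), which is complete; `z` its limit.
-/

set_option autoImplicit false

namespace Pool.Agent.CG

open MeasureTheory Set Filter Topology
open scoped ContDiff ENNReal

variable {N m : ℕ}

theorem grad_sub {G : Carnot N m} {φ ψ : Pt N → ℝ} (hφ : ContDiff ℝ ∞ φ) (hψ : ContDiff ℝ ∞ ψ)
    (x : Pt N) : G.grad (fun y => φ y - ψ y) x = G.grad φ x - G.grad ψ x := by
  have h1 : DifferentiableAt ℝ φ x := (hφ.differentiable (by simp)) x
  have h2 : DifferentiableAt ℝ ψ x := (hψ.differentiable (by simp)) x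
  ext k
  change G.X k (fun y => φ y - ψ y) x = G.X k φ x - G.X k ψ x
  rw [G.X_eq (h1.fun_sub h2), G.X_eq h1, G.X_eq h2, fderiv_fun_sub h1 h2]
  rfl

/-- the Poincaré inequality in terms of `eLpNorm` -/
private theorem hw0p_poinc (G : Carnot N m) (hm : 0 < m) (x : Pt N) {R : ℝ} (hR : 0 < R)
    {z : Pt N → ℝ} {Z : Pt N → Hv m} (h : HW0 G 2 (G.B x R) z Z) :
    eLpNorm z 2 volume ≤ ENNReal.ofReal (3 * R) * eLpNorm Z 2 volume := by
  have h12 : (1 : ℝ≥0∞) ≤ 2 := by norm_num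
  set g0 : Pt N := G.e ⟨0, hm⟩ with hg0
  have hg0ne : g0 ≠ 0 := by
    intro h0
    have h1 := congrFun h0 (G.hor ⟨0, hm⟩)
    rw [hg0, G.e_apply, if_pos rfl] at h1
    exact one_ne_zero h1
  have hl0 : 0 < G.ell g0 := G.ell_pos hg0ne
  set r : ℝ := 2 * R / G.ell g0 with hr
  have hr0 : 0 < r := by positivity
  set g : Pt N := G.del r g0 with hg
  have hell : G.ell g = 2 * R := by
    rw [hg, G.ell_del hr0, hr, div_mul_cancel₀ _ hl0.ne']
  have hout : ∀ y ∈ G.B x R, G.mul y g ∉ G.B x R := by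
    intro y hy hy'
    have h1 : G.di x y < R := hy
    have h2 : G.di x (G.mul y g) < R := hy'
    have h3 : G.di y (G.mul y g) = 2 * R := by
      change G.ell (G.mul (-y) (G.mul y g)) = 2 * R
      rw [G.neg_mul_cancel, hell]
    have h4 := G.di_triangle y x (G.mul y g)
    rw [G.di_comm y x] at h4
    linarith
  have hopen : IsOpen (G.B x R) := G.isOpen_B x R
  have hzero := h.zero' h12 hopen
  have hzero' : ∀ᵐ y, G.mul y g ∉ G.B x R → z (G.mul y g) = 0 ∧ Z (G.mul y g) = 0 :=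
    (G.mp_right g).quasiMeasurePreserving.ae hzero
  have htr := HW.trans (G := G) h12 (by norm_num) (h.hw' h12) x g (R := R) (l := 3 * R)
    (by rw [hell]; linarith)
  have h1 : eLpNorm z 2 (volume.restrict (G.B x R)) =
      eLpNorm (fun y => z (G.mul y g) - z y) 2 (volume.restrict (G.B x R)) := by
    apply eLpNorm_congr_norm_ae
    filter_upwards [ae_restrict_of_ae hzero', ae_restrict_mem hopen.measurableSet] with y hy hyB
    rw [(hy (hout y hyB)).1, zero_sub, norm_neg]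
  have h2 : eLpNorm z 2 volume = eLpNorm z 2 (volume.restrict (G.B x R)) := by
    rw [← eLpNorm_indicator_eq_eLpNorm_restrict hopen.measurableSet]
    apply eLpNorm_congr_ae
    filter_upwards [hzero] with y hy
    by_cases hyB : y ∈ G.B x R
    · rw [Set.indicator_of_mem hyB]
    · rw [Set.indicator_of_notMem hyB, (hy hyB).1]
  rw [h2, h1]
  refine htr.trans ?_
  gcongr
  exact Measure.restrict_le_self

private theorem hw0p_sq {E : Type*} [NormedAddCommGroup E] {f : Pt N → E} (hf : MemLp f 2 volume) :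
    eLpNorm f 2 volume ^ 2 = ENNReal.ofReal (∫ y, ‖f y‖ ^ 2) := by
  rw [ofReal_integral_eq_lintegral_ofReal (hf.integrable_norm_pow (p := 2) two_ne_zero)
    (Eventually.of_forall fun y => by positivity),
    eLpNorm_eq_lintegral_rpow_enorm_toReal two_ne_zero ENNReal.ofNat_ne_top]
  have h2 : (2 : ℝ≥0∞).toReal = 2 := rfl
  rw [h2, ← ENNReal.rpow_natCast, ← ENNReal.rpow_mul]
  norm_num

private theorem hw0p_test_sub {D : Set (Pt N)} {φ ψ : Pt N → ℝ} (h1 : Test D φ) (h2 : Test D ψ) :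
    Test D (fun y => φ y - ψ y) := by
  have hs : tsupport (fun y => φ y - ψ y) ⊆ tsupport φ ∪ tsupport ψ := by
    refine closure_minimal ?_ ((isClosed_tsupport φ).union (isClosed_tsupport ψ))
    intro y hy
    by_contra hc
    rw [Set.mem_union, not_or] at hc
    apply hy
    change φ y - ψ y = 0
    rw [image_eq_zero_of_notMem_tsupport hc.1, image_eq_zero_of_notMem_tsupport hc.2, sub_zero]
  refine ⟨h1.smooth.sub h2.smooth, ?_, fun y hy => ?_⟩
  · exact HasCompactSupport.of_support_subset_isCompact (h1.cpt.isCompact.union h2.cpt.isCompact)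
      (fun y hy => hs (subset_tsupport _ hy))
  · rcases hs hy with h | h
    · exact h1.sub h
    · exact h2.sub h

theorem HW0.poincare' (G : Carnot N m) (hm : 0 < m) : ∃ C : ℝ, 0 < C ∧ ∀ (x : Pt N) (R : ℝ), 0 < R →
    ∀ (z : Pt N → ℝ) (Z : Pt N → Hv m), HW0 G 2 (G.B x R) z Z →
    ∫ y, z y ^ 2 ≤ C * R ^ 2 * ∫ y, ‖Z y‖ ^ 2 := by
  refine ⟨9, by norm_num, fun x R hR z Z h => ?_⟩
  have h1 := hw0p_poinc G hm x hR h
  have h2 : ENNReal.ofReal (∫ y, ‖z y‖ ^ 2) ≤ ENNReal.ofReal (9 * R ^ 2 * ∫ y, ‖Z y‖ ^ 2) := by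
    rw [← hw0p_sq h.memz, ENNReal.ofReal_mul (by positivity), ← hw0p_sq h.memZ]
    have h3 : ENNReal.ofReal (9 * R ^ 2) = ENNReal.ofReal (3 * R) ^ 2 := by
      rw [← ENNReal.ofReal_pow (by positivity)]
      congr 1
      ring
    rw [h3, ← mul_pow]
    gcongr
  have h4 : 0 ≤ 9 * R ^ 2 * ∫ y, ‖Z y‖ ^ 2 :=
    mul_nonneg (by positivity) (integral_nonneg fun y => by positivity)
  have h5 := (ENNReal.ofReal_le_ofReal_iff h4).1 h2
  simpa only [Real.norm_eq_abs, sq_abs] using h5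

theorem HW0.complete (G : Carnot N m) (hm : 0 < m) (x : Pt N) {R : ℝ} (hR : 0 < R)
    {φ : ℕ → Pt N → ℝ} (hφ : ∀ n, Test (G.B x R) (φ n)) {Z : Pt N → Hv m} (hZ : MemLp Z 2 volume)
    (h : Tendsto (fun n => eLpNorm (fun y => G.grad (φ n) y - Z y) 2 volume) atTop (𝓝 0)) :
    ∃ z : Pt N → ℝ, HW0 G 2 (G.B x R) z Z := by
  have h12 : (1 : ℝ≥0∞) ≤ 2 := by norm_num
  haveI : Fact ((1 : ℝ≥0∞) ≤ 2) := ⟨h12⟩
  have hm1 : ∀ n, MemLp (φ n) 2 (volume : Measure (Pt N)) := fun n =>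
    (HW0.of_test (G := G) (q := 2) (hφ n)).memz
  have hm2 : ∀ n, MemLp (G.grad (φ n)) 2 (volume : Measure (Pt N)) := fun n =>
    (HW0.of_test (G := G) (q := 2) (hφ n)).memZ
  have hC : CauchySeq fun n => (hm1 n).toLp (φ n) := by
    rw [Lp.cauchySeq_Lp_iff_cauchySeq_eLpNorm]
    have hlim : Tendsto (fun n : ℕ × ℕ => ENNReal.ofReal (3 * R) *
        (eLpNorm (fun y => G.grad (φ n.1) y - Z y) 2 volume +
          eLpNorm (fun y => G.grad (φ n.2) y - Z y) 2 volume)) atTop (𝓝 0) := by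
      have h1 : Tendsto (fun n : ℕ × ℕ => eLpNorm (fun y => G.grad (φ n.1) y - Z y) 2 volume)
          atTop (𝓝 0) := by
        rw [← prod_atTop_atTop_eq]
        exact h.comp tendsto_fst
      have h2 : Tendsto (fun n : ℕ × ℕ => eLpNorm (fun y => G.grad (φ n.2) y - Z y) 2 volume)
          atTop (𝓝 0) := by
        rw [← prod_atTop_atTop_eq]
        exact h.comp tendsto_snd
      have h3 := ENNReal.Tendsto.const_mul (a := ENNReal.ofReal (3 * R)) (h1.add h2)
        (Or.inr ENNReal.ofReal_ne_top)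
      simpa using h3
    refine tendsto_of_tendsto_of_tendsto_of_le_of_le tendsto_const_nhds hlim
      (fun _ => zero_le) (fun n => ?_)
    have h4 : eLpNorm (⇑((hm1 n.1).toLp (φ n.1)) - ⇑((hm1 n.2).toLp (φ n.2))) 2 volume =
        eLpNorm (fun y => φ n.1 y - φ n.2 y) 2 volume := by
      apply eLpNorm_congr_ae
      filter_upwards [(hm1 n.1).coeFn_toLp, (hm1 n.2).coeFn_toLp] with y h1 h2
      rw [Pi.sub_apply, h1, h2]
    have h5 := hw0p_poinc G hm x hR (HW0.of_test (G := G) (q := 2)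
      (hw0p_test_sub (hφ n.1) (hφ n.2)))
    have h6 : G.grad (fun y => φ n.1 y - φ n.2 y) =
        (fun y => G.grad (φ n.1) y - Z y) - (fun y => G.grad (φ n.2) y - Z y) := by
      funext y
      rw [grad_sub (hφ n.1).smooth (hφ n.2).smooth, Pi.sub_apply]
      abel
    change eLpNorm (⇑((hm1 n.1).toLp (φ n.1)) - ⇑((hm1 n.2).toLp (φ n.2))) 2 volume ≤ _
    rw [h4]
    refine h5.trans ?_
    rw [h6]
    gcongr
    exact eLpNorm_sub_le ((hm2 n.1).sub hZ).aestronglyMeasurable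
      ((hm2 n.2).sub hZ).aestronglyMeasurable h12
  obtain ⟨F, hF⟩ := cauchySeq_tendsto_of_complete hC
  refine ⟨F, Lp.memLp F, hZ, φ, hφ, ?_, h⟩
  have h7 : Tendsto (fun n => (hm1 n).toLp (φ n)) atTop (𝓝 ((Lp.memLp F).toLp F)) := by
    rw [Lp.toLp_coeFn]
    exact hF
  exact (Lp.tendsto_Lp_iff_tendsto_eLpNorm'' _ hm1 _ (Lp.memLp F)).1 h7

end Pool.Agent.CG
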